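import Pool.Agent.FPH.Main

/-!
First passage percolation in a hostile environment on `Z^d`, with independent passage
times of law `ν` on `[1, ∞)` for the first process and `1 / lam` times such a variable
for the second one. If the seedless sites and the edges of passage time `1` percolate in
the oriented sense, both processes survive with positive probability for all `lam < 1`
satisfying an explicit inequality, which for unit passage times holds for all `lam`
close to `1`, whatever the density `p` of seeds.
-/

open MeasureTheory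

namespace Pool.Agent.Results.MP_bc70e1_pr.AtomCoexist

open Pool.Agent.FPH

theorem result (d : ℕ) (hd : 2 ≤ d) (p : unitInterval) (hp : 0 < (p : ℝ))
    (ν : Measure ℝ) [IsProbabilityMeasure ν] (hν : ∀ᵐ t ∂ν, 1 ≤ t)
    (hint : Integrable (fun t => t) ν) (hθ : 0 < envLaw d p ν {ω | OPerc ω})
    (lam : ℝ) (hl0 : 0 < lam) (hl1 : lam < 1)
    (hcond : ∃ s : ℝ, 0 < s ∧ s < 1 ∧
      (1 - (p : ℝ)) * (1 + (2 * (d : ℝ) - 1) * s) < s ^ (1 - lam / ∫ t : ℝ, t ∂ν)) :
    ∃ A : Set (Env d), MeasurableSet A ∧ 0 < envLaw d p ν A ∧ ∀ ω ∈ A,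
      (∃ T c, Evolution lam ω T c) ∧
      ∀ T c, Evolution lam ω T c → Survives c false ∧ Survives c true := by
  have : NeZero d := ⟨by omega⟩
  obtain ⟨s, hs0, hs1, h⟩ := hcond
  exact coexistence p hp ν hν hint hθ lam s hl0 hl1 hs0 hs1 h

end Pool.Agent.Results.MP_bc70e1_pr.AtomCoexist
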